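import Pool.Agent.Work.P57.ALL

/-!
MP_57720d_nt: parity of the number `a(n)` of partitions of `n` with no part `≡ 3 (mod 6)` on every
progression `Am+B` with `4 ∣ A` and `B ≡ 0, 1 (mod 4)`: the generating function modulo `2` is
transcendental over `𝔽₂(X)`, and both parities occur infinitely often.
-/

set_option autoImplicit false

namespace Pool.Agent.Work.P57L.EveryProgression

/-- `a(n)`: the number of partitions of `n` with no part `≡ 3 (mod 6)` -/
def a (n : ℕ) : ℕ := (Finset.univ.filter fun p : n.Partition => ∀ i ∈ p.parts, i % 6 ≠ 3).card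

/-- Let `A ≥ 1`, `B ≥ 0`, `4 ∣ A` and `B ≡ 0` or `1 (mod 4)`. The power series
`∑_m a(Am+B) X^m` over `𝔽₂` is transcendental over `𝔽₂[X]`, and `a(Am+B)` is odd for infinitely
many `m` and even for infinitely many `m`. -/
theorem result (A B : ℕ) (hA : 1 ≤ A) (h4 : 4 ∣ A) (hB : B % 4 = 0 ∨ B % 4 = 1) :
    Transcendental (Polynomial (ZMod 2)) (PowerSeries.mk fun m => (a (A * m + B) : ZMod 2)) ∧
      {m : ℕ | Odd (a (A * m + B))}.Infinite ∧ {m : ℕ | Even (a (A * m + B))}.Infinite :=
  Pool.Agent.Work.P57.all_MAIN A B hA h4 hB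

end Pool.Agent.Work.P57L.EveryProgression
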