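import Mathlib

/-!
# Linear disjointness over an algebraically closed field

`k` algebraically closed, `Ω` an extension, `K ⊆ Ω` an intermediate field, `z ∈ Ω` transcendental over `K`.
Elements of `Ω` which are algebraic over `k(z)` and linearly independent over `k` are linearly independent
over `K`.
-/

set_option autoImplicit false

namespace Pool.Agent.Work.P57.LDJ

open Polynomial

/-- common denominators in `k(z)` -/
theorem common_denom {k Ω : Type*} [Field k] [Field Ω] [Algebra k Ω] (z : Ω) {κ : Type*} [Finite κ]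
    (a : κ → Ω) (ha : ∀ t, a t ∈ IntermediateField.adjoin k {z}) :
    ∃ (p : Polynomial k) (m : κ → Polynomial k), aeval z p ≠ 0 ∧
      ∀ t, aeval z (m t) = aeval z p * a t := by
  classical
  cases nonempty_fintype κ
  have h1 : ∀ t, ∃ r s : Polynomial k, aeval z s ≠ 0 ∧ a t = aeval z r / aeval z s := by
    intro t
    obtain ⟨r, s, hrs⟩ := (IntermediateField.mem_adjoin_simple_iff k (a t)).1 (ha t)
    by_cases hs : aeval z s = 0
    · refine ⟨0, 1, ?_, ?_⟩
      · rw [map_one]; exact one_ne_zero
      · rw [hrs, hs, div_zero, map_zero, zero_div]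
    · exact ⟨r, s, hs, hrs⟩
  choose r s hs hrs using h1
  refine ⟨∏ t, s t, fun t => r t * ∏ t' ∈ Finset.univ.erase t, s t', ?_, ?_⟩
  · rw [map_prod]
    exact Finset.prod_ne_zero_iff.2 fun t _ => hs t
  · intro t
    rw [map_mul, hrs t, ← Finset.mul_prod_erase Finset.univ s (Finset.mem_univ t), map_mul]
    field_simp [hs t]

theorem disj {k Ω : Type*} [Field k] [IsAlgClosed k] [Field Ω] [Algebra k Ω] (z : Ω) (n : ℕ)
    (K : IntermediateField k Ω) (hz : Transcendental K z) (x : Fin n → K) (C : Fin n → Ω)
    (hC : ∀ i, IsAlgebraic (IntermediateField.adjoin k {z}) (C i))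
    (hli : ∀ y : Fin n → k, ∑ i, algebraMap k Ω (y i) * C i = 0 → ∀ i, y i = 0)
    (h : ∑ i, (x i : Ω) * C i = 0) : ∀ i, x i = 0 := by
  classical
  set F1 : IntermediateField k Ω := IntermediateField.adjoin k {z} with hF1
  set E : IntermediateField F1 Ω := IntermediateField.adjoin F1 (Set.range C) with hE
  have hfin : FiniteDimensional F1 E := by
    apply IntermediateField.finiteDimensional_adjoin
    rintro _ ⟨i, rfl⟩
    exact (hC i).isIntegral
  have hCE : ∀ i, C i ∈ E := fun i => IntermediateField.subset_adjoin F1 _ (Set.mem_range_self i)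
  set c : Fin n → E := fun i => ⟨C i, hCE i⟩ with hc
  set d := Module.finrank F1 E with hd
  have hfree : Module.Free F1 E := Module.Free.of_divisionRing F1 E
  let b : Module.Basis (Fin d) F1 E := Module.finBasis F1 E
  set M : Fin n → Matrix (Fin d) (Fin d) F1 := fun i => Algebra.leftMulMatrix b (c i) with hM
  obtain ⟨p, m, hp, hm⟩ := common_denom (k := k) z
    (fun t : Fin n × Fin d × Fin d => ((M t.1 t.2.1 t.2.2 : F1) : Ω))
    (fun t => (M t.1 t.2.1 t.2.2).2)
  set N : Fin n → Matrix (Fin d) (Fin d) (Polynomial k) := fun i => Matrix.of fun j l => m (i, j, l)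
    with hN
  -- the determinant
  set D : Polynomial (MvPolynomial (Fin n) k) :=
    (∑ i, (Polynomial.C (MvPolynomial.X i : MvPolynomial (Fin n) k)) •
      (N i).map (Polynomial.mapRingHom (MvPolynomial.C : k →+* MvPolynomial (Fin n) k))).det with hD
  have hPhi : ∀ v : Fin n → Ω,
      (Polynomial.eval₂RingHom (MvPolynomial.aeval v : MvPolynomial (Fin n) k →ₐ[k] Ω).toRingHom z) D =
      (∑ i, v i • (N i).map (fun q => aeval z q)).det := by
    intro v
    rw [hD, RingHom.map_det]
    congr 1
    ext j l
    simp only [RingHom.mapMatrix_apply, Matrix.map_apply, Matrix.sum_apply, Matrix.smul_apply,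
      smul_eq_mul, map_sum, map_mul]
    refine Finset.sum_congr rfl fun i _ => ?_
    congr 1
    · simp
    · rw [Polynomial.coe_mapRingHom, Polynomial.coe_eval₂RingHom, Polynomial.eval₂_map,
        Polynomial.aeval_def]
      congr 1
      ext a
      simp
  have hNM : ∀ v : Fin n → Ω, (∑ i, v i • (N i).map (fun q => aeval z q)) =
      (aeval z p) • (∑ i, v i • (M i).map (fun a : F1 => (a : Ω))) := by
    intro v
    ext j l
    simp only [Matrix.sum_apply, Matrix.smul_apply, Matrix.map_apply, smul_eq_mul]
    rw [Finset.mul_sum]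
    refine Finset.sum_congr rfl fun i _ => ?_
    rw [hN]
    simp only [Matrix.of_apply]
    rw [hm (i, j, l)]
    ring
  -- the eigenvector
  have hvec : Matrix.vecMul (fun j => ((b j : E) : Ω))
      (∑ i, (x i : Ω) • (M i).map (fun a : F1 => (a : Ω))) = 0 := by
    funext l
    have h1 : ∀ i, ∑ j, ((b j : E) : Ω) * ((M i j l : F1) : Ω) = C i * ((b l : E) : Ω) := by
      intro i
      have h2 : ∑ j, (M i j l) • b j = c i * b l := by
        rw [hM]
        simp only [Algebra.leftMulMatrix_eq_repr_mul]
        exact b.sum_repr (c i * b l)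
      have h3 := congrArg (fun e : E => (e : Ω)) h2
      simp only [hc] at h3
      push_cast at h3
      rw [← h3]
      refine Finset.sum_congr rfl fun j _ => ?_
      rw [mul_comm]
      rfl
    rw [Matrix.vecMul, dotProduct]
    simp only [Matrix.sum_apply, Matrix.smul_apply, Matrix.map_apply, smul_eq_mul, Pi.zero_apply]
    simp only [Finset.mul_sum]
    rw [Finset.sum_comm]
    have h4 : ∀ i, ∑ j, ((b j : E) : Ω) * ((x i : Ω) * ((M i j l : F1) : Ω)) =
        (x i : Ω) * C i * ((b l : E) : Ω) := by
      intro i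
      rw [mul_assoc, ← h1 i, Finset.mul_sum]
      exact Finset.sum_congr rfl fun j _ => by ring
    rw [Finset.sum_congr rfl fun i _ => h4 i, ← Finset.sum_mul, h, zero_mul]
  by_cases hd0 : d = 0
  · exfalso
    have h1 : 0 < Module.finrank F1 E := Module.finrank_pos
    omega
  have hbne : (fun j => ((b j : E) : Ω)) ≠ 0 := by
    intro hb
    have h1 := congrFun hb ⟨0, Nat.pos_of_ne_zero hd0⟩
    simp only [Pi.zero_apply] at h1
    have h2 : b ⟨0, Nat.pos_of_ne_zero hd0⟩ = 0 := by
      apply Subtype.ext
      exact h1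
    exact b.ne_zero _ h2
  have hdet0 : (∑ i, (x i : Ω) • (M i).map (fun a : F1 => (a : Ω))).det = 0 :=
    Matrix.exists_vecMul_eq_zero_iff.1 ⟨_, hbne, hvec⟩
  have hDx : (Polynomial.eval₂RingHom
      (MvPolynomial.aeval (fun i => (x i : Ω)) : MvPolynomial (Fin n) k →ₐ[k] Ω).toRingHom z) D = 0 := by
    rw [hPhi, hNM, Matrix.det_smul, hdet0, mul_zero]
  -- coefficients
  have hPK : D.map (MvPolynomial.aeval x : MvPolynomial (Fin n) k →ₐ[k] K).toRingHom = 0 := by
    by_contra hne
    apply hz
    refine ⟨_, hne, ?_⟩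
    rw [← hDx, Polynomial.coe_eval₂RingHom, Polynomial.aeval_def, Polynomial.eval₂_map]
    congr 1
    apply MvPolynomial.ringHom_ext
    · intro a
      simp
    · intro i
      simp
  set I : Ideal (MvPolynomial (Fin n) k) :=
    RingHom.ker (MvPolynomial.aeval x : MvPolynomial (Fin n) k →ₐ[k] K) with hI
  have hIp : I.IsPrime := RingHom.ker_isPrime _
  have hcoef : ∀ l, D.coeff l ∈ I := by
    intro l
    rw [hI, RingHom.mem_ker]
    have h1 := congrArg (fun q => Polynomial.coeff q l) hPK
    simp only [Polynomial.coeff_map, Polynomial.coeff_zero] at h1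
    exact h1
  have hloc : ∀ y ∈ MvPolynomial.zeroLocus k I, ∀ i, y i = 0 := by
    intro y hy
    rw [MvPolynomial.mem_zeroLocus_iff] at hy
    apply hli
    have h1 : (Polynomial.eval₂RingHom (MvPolynomial.aeval (fun i => algebraMap k Ω (y i)) :
        MvPolynomial (Fin n) k →ₐ[k] Ω).toRingHom z) D = 0 := by
      rw [Polynomial.coe_eval₂RingHom, Polynomial.eval₂_eq_sum, Polynomial.sum_def]
      refine Finset.sum_eq_zero fun l _ => ?_
      have h2 := hy _ (hcoef l)
      have h3 : (MvPolynomial.aeval (fun i => algebraMap k Ω (y i)) :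
          MvPolynomial (Fin n) k →ₐ[k] Ω) (D.coeff l) = algebraMap k Ω
            ((MvPolynomial.aeval y : MvPolynomial (Fin n) k →ₐ[k] k) (D.coeff l)) := by
        rw [← MvPolynomial.aeval_algebraMap_apply]
        rfl
      have h4 : (MvPolynomial.aeval (fun i => algebraMap k Ω (y i)) :
          MvPolynomial (Fin n) k →ₐ[k] Ω).toRingHom (D.coeff l) = 0 := by
        change (MvPolynomial.aeval (fun i => algebraMap k Ω (y i)) :
          MvPolynomial (Fin n) k →ₐ[k] Ω) (D.coeff l) = 0
        rw [h3, h2, map_zero]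
      rw [h4, zero_mul]
    rw [hPhi, hNM, Matrix.det_smul] at h1
    have h2 : (∑ i, algebraMap k Ω (y i) • (M i).map (fun a : F1 => (a : Ω))).det = 0 := by
      rcases mul_eq_zero.1 h1 with h3 | h3
      · exact absurd h3 (pow_ne_zero _ hp)
      · exact h3
    have h5 : (∑ i, algebraMap k Ω (y i) • (M i).map (fun a : F1 => (a : Ω))) =
        (algebraMap F1 Ω).mapMatrix (Algebra.leftMulMatrix b (∑ i, algebraMap k E (y i) * c i)) := by
      ext j l
      rw [map_sum]
      simp only [Matrix.sum_apply, Matrix.smul_apply, Matrix.map_apply, smul_eq_mul,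
        RingHom.mapMatrix_apply, map_sum]
      refine Finset.sum_congr rfl fun i _ => ?_
      have h6 : algebraMap k E (y i) * c i = (algebraMap k F1 (y i)) • c i := by
        rw [Algebra.smul_def]
        rfl
      rw [h6, map_smul, Matrix.smul_apply, smul_eq_mul, map_mul]
      rfl
    rw [h5, ← RingHom.map_det, map_eq_zero, ← Algebra.norm_eq_matrix_det b,
      Algebra.norm_eq_zero_iff] at h2
    have h7 := congrArg (fun e : E => (e : Ω)) h2
    simp only [hc] at h7
    push_cast at h7
    rw [← h7]
    rfl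
  intro i
  have h1 : (MvPolynomial.X i : MvPolynomial (Fin n) k) ∈ MvPolynomial.vanishingIdeal k
      (MvPolynomial.zeroLocus k I) := by
    rw [MvPolynomial.mem_vanishingIdeal_iff]
    intro y hy
    rw [MvPolynomial.aeval_X]
    exact hloc y hy i
  rw [MvPolynomial.IsPrime.vanishingIdeal_zeroLocus, hI, RingHom.mem_ker, MvPolynomial.aeval_X] at h1
  exact h1

/-- the symmetric form: a relation between elements of `K` which are independent over `k`, with
coefficients algebraic over `k(z)`, is trivial -/
theorem disj2 {k Ω : Type*} [Field k] [IsAlgClosed k] [Field Ω] [Algebra k Ω] (z : Ω)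
    (K : IntermediateField k Ω) (hz : Transcendental K z) {ι : Type*} [Fintype ι] (x : ι → K)
    (C : ι → Ω) (hC : ∀ i, IsAlgebraic (IntermediateField.adjoin k {z}) (C i))
    (hx : ∀ y : ι → k, ∑ i, algebraMap k Ω (y i) * (x i : Ω) = 0 → ∀ i, y i = 0)
    (h : ∑ i, (x i : Ω) * C i = 0) : ∀ i, C i = 0 := by
  classical
  set V : Submodule k Ω := Submodule.span k (Set.range C) with hV
  have hfin : FiniteDimensional k V := FiniteDimensional.span_of_finite k (Set.finite_range C)
  have hCV : ∀ i, C i ∈ V := fun i => Submodule.subset_span (Set.mem_range_self i)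
  have hVa : ∀ v ∈ V, IsAlgebraic (IntermediateField.adjoin k {z}) v := by
    intro v hv
    rw [hV] at hv
    induction hv using Submodule.span_induction with
    | mem v hv =>
      obtain ⟨i, rfl⟩ := hv
      exact hC i
    | zero => exact isAlgebraic_zero
    | add v w _ _ h1 h2 => exact h1.add h2
    | smul a v _ h1 =>
      have h2 : a • v = algebraMap (IntermediateField.adjoin k {z}) Ω
          (algebraMap k (IntermediateField.adjoin k {z}) a) * v := by
        rw [Algebra.smul_def]
        rfl
      rw [h2]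
      exact (isAlgebraic_algebraMap _).mul h1
  set r := Module.finrank k V with hr
  let b : Module.Basis (Fin r) k V := Module.finBasis k V
  have hrep : ∀ i, C i = ∑ l, algebraMap k Ω (b.repr ⟨C i, hCV i⟩ l) * ((b l : V) : Ω) := by
    intro i
    have h1 := congrArg (fun v : V => (v : Ω)) (b.sum_repr ⟨C i, hCV i⟩)
    simp only at h1
    refine h1.symm.trans ?_
    push_cast
    refine Finset.sum_congr rfl fun l _ => ?_
    rw [Algebra.smul_def]
  have hsum : ∑ l, ((∑ i, algebraMap k K (b.repr ⟨C i, hCV i⟩ l) * x i : K) : Ω) *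
      ((b l : V) : Ω) = 0 := by
    rw [← h]
    push_cast
    have h1 : ∀ i, (x i : Ω) * C i = ∑ l, (x i : Ω) *
        (algebraMap k Ω (b.repr ⟨C i, hCV i⟩ l) * ((b l : V) : Ω)) := by
      intro i
      rw [← Finset.mul_sum, ← hrep i]
    rw [Finset.sum_congr rfl fun i _ => h1 i, Finset.sum_comm]
    refine Finset.sum_congr rfl fun l _ => ?_
    rw [Finset.sum_mul]
    refine Finset.sum_congr rfl fun i _ => ?_
    ring
  have hz2 := disj z r K hz (fun l => ∑ i, algebraMap k K (b.repr ⟨C i, hCV i⟩ l) * x i)
    (fun l => ((b l : V) : Ω)) (fun l => hVa _ (b l).2) (by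
      intro y hy
      have h1 : ∑ l, y l • b l = 0 := by
        apply Subtype.ext
        push_cast
        rw [← hy]
        exact Finset.sum_congr rfl fun l _ => by rw [Algebra.smul_def]
      exact fun l => Fintype.linearIndependent_iff.1 b.linearIndependent y h1 l) hsum
  intro i
  rw [hrep i]
  refine Finset.sum_eq_zero fun l _ => ?_
  have h1 : b.repr ⟨C i, hCV i⟩ l = 0 := hx (fun i => b.repr ⟨C i, hCV i⟩ l) (by
    have h2 := congrArg (fun v : K => (v : Ω)) (hz2 l)
    push_cast at h2
    exact h2) i
  rw [h1, map_zero, zero_mul]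

end Pool.Agent.Work.P57.LDJ
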