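import Pool.Agent.Work.P57.ALL
import Pool.Agent.Work.P57L.LDJ

/-!
# Linear independence of the sieved series
-/

set_option autoImplicit false

namespace Pool.Agent.Work.P57.LI

open HahnSeries FIN2aux

/-- `K0 D` as an extension of `kk` -/
noncomputable def KF (D : ℤ) : IntermediateField kk KK := (K0 D).restrictScalars kk

theorem mem_KF {D : ℤ} {y : KK} : y ∈ KF D ↔ y ∈ K0 D := Iff.rfl

theorem z_transc (D : ℤ) (hD : 0 < D) :
    Transcendental (KF D) (single (1 : ℤ) (1 : kk) : KK) := by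
  intro hz
  let f : KF D →+* K0 D :=
    { toFun := fun x => ⟨x.1, mem_KF.1 x.2⟩
      map_one' := rfl
      map_mul' := fun _ _ => rfl
      map_zero' := rfl
      map_add' := fun _ _ => rfl }
  have hz1 : IsAlgebraic (K0 D) (single (1 : ℤ) (1 : kk) : KK) := by
    have h := hz.ringHom_of_comp_eq f (RingHom.id KK) (by
      intro x y hxy
      have := congrArg (fun v : K0 D => (v : KK)) hxy
      exact Subtype.ext this) (by
      ext x
      rfl)
    exact h
  have hz2 : IsAlgebraic (AA D) (single (1 : ℤ) (1 : kk) : KK) := by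
    exact IsAlgebraic.restrictScalars (AA D) hz1
  have hz3 : (single (1 : ℤ) (1 : kk) : KK) ∈ K0 D := mem_K0.2 hz2
  obtain ⟨c, hc⟩ := all_TR D 1 _ hD one_pos hz3 (by
    have h1 : (single (1 : ℤ) (1 : kk) : KK) ∈
      IntermediateField.adjoin kk {(single (1 : ℤ) (1 : kk) : KK)} := single_mem 1 1
    exact isAlgebraic_algebraMap (⟨_, h1⟩ :
      IntermediateField.adjoin kk {(single (1 : ℤ) (1 : kk) : KK)}))
  have h1 := congrArg (fun y : KK => y.coeff 1) hc
  simp only [C_apply] at h1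
  rw [HahnSeries.coeff_single_same, HahnSeries.coeff_single_of_ne (by norm_num)] at h1
  exact one_ne_zero h1

theorem tameN (e : ℕ) (he : 0 < e) : Tame fun n : ℕ => (e : ℤ) * (n : ℤ) := by
  obtain ⟨-, -, -, -, -, -, -, -, h9⟩ := all_TH
  exact (h9 (e : ℤ) (by positivity)).2.2.1

/-- powers of two -/
theorem pow2 (r : ℕ → kk) (hr : ∀ n, r n ^ 2 = r n) (e : ℕ) (he : 0 < e) (t : ℕ) :
    Th (fun n : ℕ => (e : ℤ) * (n : ℤ)) r ^ 2 ^ t =
      Th (fun n : ℕ => ((2 ^ t * e : ℕ) : ℤ) * (n : ℤ)) r := by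
  induction t with
  | zero => simp
  | succ t ih =>
    rw [pow_succ, pow_mul, ih]
    obtain ⟨-, -, -, -, h5, -⟩ := all_TH
    rw [h5 ℕ _ _ (tameN _ (by positivity))]
    congr 1
    · funext n
      push_cast
      ring
    · funext n
      exact hr n

theorem pa_sq (n : ℕ) : (pa n : kk) ^ 2 = (pa n : kk) := by
  rcases Nat.even_or_odd (pa n) with h | h
  · obtain ⟨m, hm⟩ := h
    rw [hm]
    push_cast
    rw [CharTwo.add_self_eq_zero]
    simp
  · rw [natCast_odd _ h]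
    simp

/-- the sieved series of `a(Am+B)`, `A = 2^k M`, normalized -/
noncomputable def W (s K k M B : ℕ) : KK :=
  single (-((2 ^ (K - k) * (4 * (n0 s / (3 * M))) : ℕ) : ℤ)) 1 *
    Th (fun n : ℕ => ((2 ^ (K - k + 3) * (3 * (n0 s / (3 * M))) : ℕ) : ℤ) * (n : ℤ))
      (fun n => if n % (2 ^ k * M) = B % (2 ^ k * M) then (pa n : kk) else 0)

theorem r_sq (A B : ℕ) (n : ℕ) : (if n % A = B % A then (pa n : kk) else 0) ^ 2 =
    (if n % A = B % A then (pa n : kk) else 0) := by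
  split_ifs
  · exact pa_sq n
  · simp

theorem W_mem (s : ℕ) (ξ : kkˣ) (hs : 2 ≤ s) (hξ : IsPrimitiveRoot ξ (D0 s)) (K k M B : ℕ)
    (hM : 0 < M) (hMs : 3 * M ∣ nn s) : W s K k M B ∈ K0 (D0 s) := by
  have hdvd : 3 * M ∣ n0 s := dvd_trans hMs (nn_dvd_n0 s)
  have hs1 : 1 ≤ s := by omega
  obtain ⟨y, -, hy2, hy3⟩ := all_SIV all_GS s ξ M k B hs1 hξ hdvd hM
  have hm0pos : 0 < n0 s / (3 * M) :=
    Nat.div_pos (Nat.le_of_dvd (n0_pos s hs1) hdvd) (by omega)
  have hZ : single (-4 * (n0 s / (3 * M) : ℕ) : ℤ) 1 *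
      (Th (fun n : ℕ => 3 * (n0 s / (3 * M) : ℕ) * (n : ℤ))
        (fun n => if n % (2 ^ k * M) = B % (2 ^ k * M) then (pa n : kk) else 0)) ^ 8 ∈
      K0 (D0 s) := by
    rw [← hy3]
    refine sum_mem fun i _ => ?_
    apply smul_mem_K0
    exact all_ALG s ξ hs hξ (3 * M) (k + 3) hMs (Nat.dvd_mul_right 3 _) i (y i) _ (hy2 i)
  have h1 := pow_mem hZ (2 ^ (K - k))
  rw [mul_pow, ← pow_mul, HahnSeries.single_pow, one_pow] at h1
  have h2 : (8 : ℕ) * 2 ^ (K - k) = 2 ^ (K - k + 3) := by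
    rw [_root_.pow_add]
    ring
  have h3 : (Th (fun n : ℕ => 3 * (n0 s / (3 * M) : ℕ) * (n : ℤ))
        (fun n => if n % (2 ^ k * M) = B % (2 ^ k * M) then (pa n : kk) else 0)) =
      (Th (fun n : ℕ => ((3 * (n0 s / (3 * M)) : ℕ) : ℤ) * (n : ℤ))
        (fun n => if n % (2 ^ k * M) = B % (2 ^ k * M) then (pa n : kk) else 0)) := by
    congr 1
  rw [h2, h3, pow2 _ (r_sq _ B) _ (by positivity)] at h1
  have h4 : (2 ^ (K - k) : ℕ) • (-4 * (n0 s / (3 * M) : ℕ) : ℤ) =
      (-((2 ^ (K - k) * (4 * (n0 s / (3 * M))) : ℕ) : ℤ)) := by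
    rw [nsmul_eq_mul]
    push_cast
    ring
  rw [h4] at h1
  exact h1

/-- coefficients of `W` -/
theorem W_coeff (s K k M B : ℕ) (hm : 0 < n0 s / (3 * M)) (n : ℕ) :
    (W s K k M B).coeff (((2 ^ (K - k) * (4 * (n0 s / (3 * M))) : ℕ) : ℤ) * (6 * (n : ℤ) - 1)) =
      if n % (2 ^ k * M) = B % (2 ^ k * M) then (pa n : kk) else 0 := by
  unfold W
  have h1 : (((2 ^ (K - k) * (4 * (n0 s / (3 * M))) : ℕ) : ℤ) * (6 * (n : ℤ) - 1)) =
      (((2 ^ (K - k + 3) * (3 * (n0 s / (3 * M))) : ℕ) : ℤ) * (n : ℤ)) +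
      (-((2 ^ (K - k) * (4 * (n0 s / (3 * M))) : ℕ) : ℤ)) := by
    push_cast
    ring
  rw [h1, HahnSeries.coeff_single_mul_add, one_mul,
    Th_coeff_mul _ (by positivity) (tameN _ (by positivity))]

theorem W_supp (s K k M B : ℕ) (hm : 0 < n0 s / (3 * M)) (g : ℤ)
    (hg : (W s K k M B).coeff g ≠ 0) : ∃ n : ℕ, n % (2 ^ k * M) = B % (2 ^ k * M) ∧
      g = ((2 ^ (K - k) * (4 * (n0 s / (3 * M))) : ℕ) : ℤ) * (6 * (n : ℤ) - 1) := by
  have h1 : g = (g + ((2 ^ (K - k) * (4 * (n0 s / (3 * M))) : ℕ) : ℤ)) +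
      (-((2 ^ (K - k) * (4 * (n0 s / (3 * M))) : ℕ) : ℤ)) := by
    ring
  by_cases hn : ∃ n : ℕ, ((2 ^ (K - k + 3) * (3 * (n0 s / (3 * M))) : ℕ) : ℤ) * (n : ℤ) =
      g + ((2 ^ (K - k) * (4 * (n0 s / (3 * M))) : ℕ) : ℤ)
  · obtain ⟨n, hn⟩ := hn
    have h2 : g = ((2 ^ (K - k) * (4 * (n0 s / (3 * M))) : ℕ) : ℤ) * (6 * (n : ℤ) - 1) := by
      have h3 : ((2 ^ (K - k + 3) * (3 * (n0 s / (3 * M))) : ℕ) : ℤ) * (n : ℤ) =
        ((2 ^ (K - k) * (4 * (n0 s / (3 * M))) : ℕ) : ℤ) * (6 * (n : ℤ)) := by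
        push_cast
        ring
      rw [h3] at hn
      linear_combination -hn
    refine ⟨n, ?_, h2⟩
    rw [h2, W_coeff s K k M B hm n] at hg
    by_contra hne
    rw [if_neg hne] at hg
    exact hg rfl
  · exfalso
    push Not at hn
    apply hg
    unfold W
    rw [h1, HahnSeries.coeff_single_mul_add, one_mul]
    exact Th_coeff_notin _ (tameN _ (by positivity)) _ _ hn

/-- the image of the generating function -/
theorem W_rho (s K k M B : ℕ) (hs : 1 ≤ s) (hkK : k ≤ K) (hM : 0 < M) (hd : 3 * M ∣ n0 s)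
    (hE : 0 < 2 ^ (K + 3) * n0 s) :
    ∃ (a : ℤ) (P : KK), P ∈ L1 ∧ rho (2 ^ (K + 3) * n0 s) hE 1
      (PowerSeries.mk fun m => (pa (2 ^ k * M * m + B) : ZMod 2)) =
        single a 1 * W s K k M B + P := by
  have hm : 0 < n0 s / (3 * M) :=
    Nat.div_pos (Nat.le_of_dvd (n0_pos s hs) hd) (by omega)
  have hmul : 3 * M * (n0 s / (3 * M)) = n0 s := Nat.mul_div_cancel' hd
  set m0 := n0 s / (3 * M) with hm0
  have he : 0 < 2 ^ (K - k + 3) * (3 * m0) := by positivity
  have hA : 0 < 2 ^ k * M := by positivity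
  have hE2 : 2 ^ (K - k + 3) * (3 * m0) * (2 ^ k * M) = 2 ^ (K + 3) * n0 s := by
    have h1 : 2 ^ (K + 3) = 2 ^ (K - k + 3) * 2 ^ k := by
      rw [← _root_.pow_add]
      congr 1
      omega
    rw [h1]
    conv_rhs => rw [← hmul]
    ring
  have h1 := R_eq (2 ^ (K - k + 3) * (3 * m0)) he (2 ^ k * M) 1 B hA odd_one 1
    IsPrimitiveRoot.one (tameN _ he)
  rw [mul_one] at h1
  unfold HH at h1
  rw [Finset.sum_range_one, pow_zero, Units.val_one] at h1
  have hrho : ∀ (c c' : ℕ) (h : 0 < c) (h' : 0 < c') (f : PowerSeries (ZMod 2)), c = c' →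
      rho c h 1 f = rho c' h' 1 f := by
    rintro c c' h h' f rfl
    rfl
  rw [hrho _ (2 ^ (K + 3) * n0 s) _ hE _ hE2] at h1
  set e := 2 ^ (K - k + 3) * (3 * m0) with hedef
  set S : KK := ∑ n ∈ Finset.range B, single ((e : ℤ) * n)
        (if n % (2 ^ k * M) = B % (2 ^ k * M) then (pa n : kk) else 0) with hS
  refine ⟨-((e : ℤ) * B) + ((2 ^ (K - k) * (4 * m0) : ℕ) : ℤ),
    single (-((e : ℤ) * B)) 1 * S, ?_, ?_⟩
  · exact mul_mem (single_mem _ _) (sum_mem fun n _ => single_mem _ _)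
  · unfold W
    rw [← hm0, ← hedef, ← mul_assoc, HahnSeries.single_mul_single, h1, one_mul, add_neg_cancel_right,
      mul_add, ← mul_assoc, HahnSeries.single_mul_single, one_mul, neg_add_cancel]
    have h4 : (single (0 : ℤ) (1 : kk) : KK) = 1 := rfl
    rw [h4, one_mul, add_assoc, CharTwo.add_self_eq_zero, add_zero]

theorem exists_s (n : ℕ) (hn : Odd n) : ∃ s, 2 ≤ s ∧ n ∣ nn s := by
  refine ⟨2 * Nat.totient n, ?_, ?_⟩
  · have := Nat.totient_pos.2 hn.pos
    omega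
  · have h1 : 2 ^ Nat.totient n ≡ 1 [MOD n] :=
      Nat.ModEq.pow_totient (Nat.coprime_two_left.2 hn)
    have h2 : 2 ^ (2 * Nat.totient n) ≡ 1 [MOD n] := by
      have h3 := h1.pow 2
      rw [← pow_mul, one_pow, mul_comm] at h3
      exact h3
    exact (Nat.modEq_iff_dvd' (Nat.one_le_pow _ _ (by norm_num))).1 h2.symm

theorem core {ι : Type} [Fintype ι] (k M B : ι → ℕ) (hk : ∀ i, 2 ≤ k i)
    (hM : ∀ i, Odd (M i)) (hB : ∀ i, B i % 4 = 0 ∨ B i % 4 = 1)
    (hI : ∀ i j, i ≠ j → ¬ ((6 * ((2 ^ k i * M i : ℕ) : ℤ) * ((2 ^ k j * M j : ℕ) : ℤ)) ∣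
      ((2 ^ k j * M j : ℕ) : ℤ) * (6 * B i - 1) - ((2 ^ k i * M i : ℕ) : ℤ) * (6 * B j - 1)))
    (c : ι → PowerSeries (ZMod 2)) (hc : ∀ i, IsAlgebraic (Polynomial (ZMod 2)) (c i))
    (h : IsAlgebraic (Polynomial (ZMod 2))
      (∑ i, c i * PowerSeries.mk fun m => (pa (2 ^ k i * M i * m + B i) : ZMod 2))) :
    ∀ i, c i = 0 := by
  classical
  obtain ⟨s, hs, hs3⟩ := exists_s (3 * ∏ i, M i)
    (Nat.odd_mul.mpr ⟨by decide, Finset.prod_induction _ _ (fun _ _ h1 h2 => Nat.odd_mul.mpr ⟨h1, h2⟩)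
      odd_one fun i _ => hM i⟩)
  have hs1 : 1 ≤ s := by omega
  have hMs : ∀ i, 3 * M i ∣ nn s := fun i =>
    (mul_dvd_mul_left 3 (Finset.dvd_prod_of_mem M (Finset.mem_univ i))).trans hs3
  have hd : ∀ i, 3 * M i ∣ n0 s := fun i => dvd_trans (hMs i) (nn_dvd_n0 s)
  have hmpos : ∀ i, 0 < n0 s / (3 * M i) := fun i =>
    Nat.div_pos (Nat.le_of_dvd (n0_pos s hs1) (hd i)) (by have := (hM i).pos; omega)
  have hmul : ∀ i, 3 * M i * (n0 s / (3 * M i)) = n0 s := fun i => Nat.mul_div_cancel' (hd i)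
  have hD0 : Odd (D0 s) := by
    unfold D0
    exact Nat.odd_mul.mpr ⟨by decide, n0_odd s hs1⟩
  obtain ⟨ξ, hξ⟩ := exists_prim (D0 s) hD0
  set K := ∑ i, k i with hK
  have hkK : ∀ i, k i ≤ K := fun i => Finset.single_le_sum (fun _ _ => Nat.zero_le _)
    (Finset.mem_univ i)
  have hE : 0 < 2 ^ (K + 3) * n0 s := by
    have := n0_pos s hs1
    positivity
  choose a P hP hrho using fun i => W_rho s K (k i) (M i) (B i) hs1 (hkK i) (hM i).pos (hd i) hE
  -- the relation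
  have hrel : (∑ i, rho (2 ^ (K + 3) * n0 s) hE 1 (c i) *
      (single (a i) 1 * W s K (k i) (M i) (B i) + P i)) = rho (2 ^ (K + 3) * n0 s) hE 1
      (∑ i, c i * PowerSeries.mk fun m => (pa (2 ^ k i * M i * m + B i) : ZMod 2)) := by
    rw [map_sum]
    exact Finset.sum_congr rfl fun i _ => by rw [map_mul, hrho]
  set T : KK := rho (2 ^ (K + 3) * n0 s) hE 1
    (∑ i, c i * PowerSeries.mk fun m => (pa (2 ^ k i * M i * m + B i) : ZMod 2)) with hT
  have hTalg : IsAlgebraic L1 T := alg_rho _ hE 1 one_ne_zero _ h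
  have hcalg : ∀ i, IsAlgebraic L1 (rho (2 ^ (K + 3) * n0 s) hE 1 (c i)) := fun i =>
    alg_rho _ hE 1 one_ne_zero _ (hc i)
  have hL1 : ∀ y : KK, y ∈ L1 → IsAlgebraic L1 y := fun y hy =>
    isAlgebraic_algebraMap (⟨y, hy⟩ : L1)
  have hWm : ∀ i, W s K (k i) (M i) (B i) ∈ KF (D0 s) := fun i =>
    mem_KF.2 (W_mem s ξ hs hξ K (k i) (M i) (B i) (hM i).pos (hMs i))
  set Cf : Option ι → KK := fun o => match o with
    | none => (∑ i, rho (2 ^ (K + 3) * n0 s) hE 1 (c i) * P i) + T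
    | some i => rho (2 ^ (K + 3) * n0 s) hE 1 (c i) * single (a i) 1 with hCf
  set xf : Option ι → KF (D0 s) := fun o => match o with
    | none => 1
    | some i => ⟨W s K (k i) (M i) (B i), hWm i⟩ with hxf
  have hCalg : ∀ o, IsAlgebraic L1 (Cf o) := by
    rintro (_ | i)
    · rw [hCf]
      simp only
      rw [← mem_algebraicClosure_iff]
      refine add_mem (sum_mem fun i _ => mul_mem ?_ ?_) ?_
      · rw [mem_algebraicClosure_iff]; exact hcalg i
      · rw [mem_algebraicClosure_iff]; exact hL1 _ (hP i)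
      · rw [mem_algebraicClosure_iff]; exact hTalg
    · rw [hCf]
      simp only
      exact (hcalg i).mul (hL1 _ (single_mem _ _))
  have hind : ∀ y : Option ι → kk, ∑ o, algebraMap kk KK (y o) * (xf o : KK) = 0 →
      ∀ o, y o = 0 := by
    intro y hy
    rw [Fintype.sum_option] at hy
    have hco : ∀ g : ℤ, (algebraMap kk KK (y none) * ((xf none : KF (D0 s)) : KK)).coeff g +
        ∑ i, y (some i) * (W s K (k i) (M i) (B i)).coeff g = 0 := by
      intro g
      have h1 := congrArg (fun f : KK => f.coeff g) hy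
      simp only [HahnSeries.coeff_add, HahnSeries.coeff_zero] at h1
      rw [coeff_sum'] at h1
      rw [← h1]
      congr 1
      refine Finset.sum_congr rfl fun i _ => ?_
      rw [← HahnSeries.C_eq_algebraMap, HahnSeries.C_mul_eq_smul, HahnSeries.coeff_smul, smul_eq_mul]
    have hnone : ∀ g : ℤ, g ≠ 0 →
        (algebraMap kk KK (y none) * ((xf none : KF (D0 s)) : KK)).coeff g = 0 := by
      intro g hg
      have h1 : ((xf none : KF (D0 s)) : KK) = 1 := rfl
      rw [h1, mul_one, ← HahnSeries.C_eq_algebraMap, C_apply, HahnSeries.coeff_single_of_ne hg]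
    have hsome : ∀ i, y (some i) = 0 := by
      intro i
      obtain ⟨n, hn1, hn2⟩ := all_FIN1 (k i) (M i) (B i) (hk i) (hM i) (hB i)
      have hgne : ((2 ^ (K - k i) * (4 * (n0 s / (3 * M i))) : ℕ) : ℤ) * (6 * (n : ℤ) - 1) ≠ 0 := by
        have h1 : ((2 ^ (K - k i) * (4 * (n0 s / (3 * M i))) : ℕ) : ℤ) ≠ 0 := by
          have := hmpos i
          positivity
        have h2 : (6 * (n : ℤ) - 1) ≠ 0 := by omega
        exact mul_ne_zero h1 h2
      have h1 := hco (((2 ^ (K - k i) * (4 * (n0 s / (3 * M i))) : ℕ) : ℤ) * (6 * (n : ℤ) - 1))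
      rw [hnone _ hgne, zero_add, Finset.sum_eq_single i] at h1
      · rw [W_coeff s K (k i) (M i) (B i) (hmpos i) n, if_pos hn1, natCast_odd _ hn2, mul_one] at h1
        exact h1
      · intro j _ hji
        by_contra hne
        have hne2 : (W s K (k j) (M j) (B j)).coeff
            (((2 ^ (K - k i) * (4 * (n0 s / (3 * M i))) : ℕ) : ℤ) * (6 * (n : ℤ) - 1)) ≠ 0 := by
          intro h0
          rw [h0, mul_zero] at hne
          exact hne rfl
        obtain ⟨n', hn', heq⟩ := W_supp s K (k j) (M j) (B j) (hmpos j) _ hne2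
        apply hI i j (Ne.symm hji)
        -- arithmetic
        have e1 : ((2 ^ (K - k i) * (4 * (n0 s / (3 * M i))) : ℕ) : ℤ) * (3 * (2 ^ k i * M i : ℕ)) =
            ((2 ^ K * 4 * n0 s : ℕ) : ℤ) := by
          have e2 : 2 ^ K = 2 ^ (K - k i) * 2 ^ k i := by
            rw [← _root_.pow_add]
            congr 1
            have := hkK i
            omega
          have e3 : 2 ^ (K - k i) * (4 * (n0 s / (3 * M i))) * (3 * (2 ^ k i * M i)) =
              2 ^ K * 4 * n0 s := by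
            rw [e2]
            conv_rhs => rw [← hmul i]
            ring
          exact_mod_cast e3
        have e1' : ((2 ^ (K - k j) * (4 * (n0 s / (3 * M j))) : ℕ) : ℤ) * (3 * (2 ^ k j * M j : ℕ)) =
            ((2 ^ K * 4 * n0 s : ℕ) : ℤ) := by
          have e2 : 2 ^ K = 2 ^ (K - k j) * 2 ^ k j := by
            rw [← _root_.pow_add]
            congr 1
            have := hkK j
            omega
          have e3 : 2 ^ (K - k j) * (4 * (n0 s / (3 * M j))) * (3 * (2 ^ k j * M j)) =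
              2 ^ K * 4 * n0 s := by
            rw [e2]
            conv_rhs => rw [← hmul j]
            ring
          exact_mod_cast e3
        have hpos : ((2 ^ K * 4 * n0 s : ℕ) : ℤ) ≠ 0 := by
          have := n0_pos s hs1
          positivity
        have e4 : ((2 ^ k j * M j : ℕ) : ℤ) * (6 * (n : ℤ) - 1) =
            ((2 ^ k i * M i : ℕ) : ℤ) * (6 * (n' : ℤ) - 1) := by
          apply mul_left_cancel₀ hpos
          calc ((2 ^ K * 4 * n0 s : ℕ) : ℤ) * (((2 ^ k j * M j : ℕ) : ℤ) * (6 * (n : ℤ) - 1))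
              = (((2 ^ (K - k i) * (4 * (n0 s / (3 * M i))) : ℕ) : ℤ) * (6 * (n : ℤ) - 1)) *
                (3 * (2 ^ k i * M i : ℕ) * ((2 ^ k j * M j : ℕ) : ℤ)) := by
                rw [← e1]; ring
            _ = (((2 ^ (K - k j) * (4 * (n0 s / (3 * M j))) : ℕ) : ℤ) * (6 * (n' : ℤ) - 1)) *
                (3 * (2 ^ k i * M i : ℕ) * ((2 ^ k j * M j : ℕ) : ℤ)) := by rw [heq]
            _ = ((2 ^ K * 4 * n0 s : ℕ) : ℤ) *
                (((2 ^ k i * M i : ℕ) : ℤ) * (6 * (n' : ℤ) - 1)) := by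
                rw [← e1']; ring
        have e5 : ((2 ^ k i * M i : ℕ) : ℤ) ∣ (n : ℤ) - B i :=
          (Int.natCast_modEq_iff.2 hn1).symm.dvd
        have e6 : ((2 ^ k j * M j : ℕ) : ℤ) ∣ (n' : ℤ) - B j :=
          (Int.natCast_modEq_iff.2 hn').symm.dvd
        obtain ⟨u, hu⟩ := e5
        obtain ⟨v, hv⟩ := e6
        refine ⟨v - u, ?_⟩
        have hu' : (B i : ℤ) = n - ((2 ^ k i * M i : ℕ) : ℤ) * u := by linarith
        have hv' : (B j : ℤ) = n' - ((2 ^ k j * M j : ℕ) : ℤ) * v := by linarith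
        rw [hu', hv']
        linear_combination e4
      · intro hi
        exact absurd (Finset.mem_univ i) hi
    rintro (_ | i)
    · have h1 := hco 0
      rw [Finset.sum_eq_zero (fun i _ => by rw [hsome i, zero_mul]), add_zero] at h1
      have h2 : ((xf none : KF (D0 s)) : KK) = 1 := rfl
      rw [h2, mul_one, ← HahnSeries.C_eq_algebraMap, C_apply, HahnSeries.coeff_single_same] at h1
      exact h1
    · exact hsome i
  have hfin := LDJ.disj2 (single (1 : ℤ) (1 : kk) : KK) (KF (D0 s))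
    (z_transc (D0 s) (by exact_mod_cast hD0.pos)) xf Cf hCalg hind (by
      rw [Fintype.sum_option]
      have h1 : ((xf none : KF (D0 s)) : KK) * Cf none =
        (∑ i, rho (2 ^ (K + 3) * n0 s) hE 1 (c i) * P i) + T := by
        change (1 : KK) * _ = _
        rw [one_mul]
      have h2 : ∀ i, ((xf (some i) : KF (D0 s)) : KK) * Cf (some i) =
          rho (2 ^ (K + 3) * n0 s) hE 1 (c i) * (single (a i) 1 * W s K (k i) (M i) (B i)) := by
        intro i
        change W s K (k i) (M i) (B i) * (rho (2 ^ (K + 3) * n0 s) hE 1 (c i) * single (a i) 1) = _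
        ring
      rw [h1, Finset.sum_congr rfl fun i _ => h2 i]
      have h3 : T = (∑ i, rho (2 ^ (K + 3) * n0 s) hE 1 (c i) *
          (single (a i) 1 * W s K (k i) (M i) (B i))) +
          ∑ i, rho (2 ^ (K + 3) * n0 s) hE 1 (c i) * P i := by
        rw [← Finset.sum_add_distrib, ← hrel]
        exact Finset.sum_congr rfl fun i _ => by ring
      have h4 : ∀ X Y : KK, X + (Y + X) + Y = 0 := by
        intro X Y
        have := CharTwo.add_self_eq_zero (X + Y)
        linear_combination this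
      rw [h3]
      exact h4 _ _)
  intro i
  have h1 := hfin (some i)
  have h2 : rho (2 ^ (K + 3) * n0 s) hE 1 (c i) * single (a i) (1 : kk) = 0 := h1
  have h3 : rho (2 ^ (K + 3) * n0 s) hE 1 (c i) = 0 := by
    rcases mul_eq_zero.1 h2 with h4 | h4
    · exact h4
    · exact absurd h4 (HahnSeries.single_ne_zero one_ne_zero)
  exact rho_inj _ hE 1 one_ne_zero (by rw [h3, map_zero])

end Pool.Agent.Work.P57.LI
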